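import Pool.Agent.N110.CC.WDefs

/-!
Definition: groups of pseudo-automorphisms which act cocompactly on the projectivisation of the
interior of a cone.
-/

set_option autoImplicit false

open FF Pool.Agent.W602.GT Pool.Agent.Y172 Pool.Agent.R887 Pool.Agent.N110.CC

namespace Pool.Agent.H59E

/-- Let `Λ` be the group generated by the classes `s j`, and `Λ ⊗ ℝ = ℝ ^ k` in the coordinates given by
the `s j`. The group `𝒮` of pseudo-automorphisms acts cocompactly on the projectivisation of the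
interior of some closed convex cone `D` of pseudo-effective classes in `Λ ⊗ ℝ`: the interior of `D` is
not empty, `D` is mapped into itself by the pull backs by the elements of `𝒮`, and there is a compact
set `B` in the interior of `D` such that for every `x` in the interior of `D` some positive multiple of
the pull back of `x` by some element of `𝒮` is in `B`. -/
def CocompactOn {K : Type} [Field K] [Algebra ℂ K] {N ρ k : ℕ} (y : Fin (N + 1) → K)
    (c : Place ℂ K → Fin ρ → ℤ) (s : Fin k → Fin ρ → ℤ) (𝒮 : Subgroup (K ≃ₐ[ℂ] K)) : Prop :=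
  ∃ D B : Set (Fin k → ℝ), IsClosed D ∧ (∀ x ∈ D, ∀ z ∈ D, x + z ∈ D) ∧
    (∀ a : ℝ, 0 ≤ a → ∀ x ∈ D, a • x ∈ D) ∧ (interior D).Nonempty ∧
    (∀ x ∈ D, comb s x ∈ closure (effCone y c)) ∧
    (∀ ψ ∈ 𝒮, ∀ T : (Fin k → ℝ) ≃ₗ[ℝ] (Fin k → ℝ), IsPullBackOn y c s ψ T → ∀ x ∈ D, T x ∈ D) ∧
    IsCompact B ∧ B ⊆ interior D ∧
    ∀ x ∈ interior D, ∃ ψ ∈ 𝒮, ∃ T : (Fin k → ℝ) ≃ₗ[ℝ] (Fin k → ℝ), IsPullBackOn y c s ψ T ∧
      ∃ a : ℝ, 0 < a ∧ a • T x ∈ B

end Pool.Agent.H59E
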