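import Pool.Agent.H73.MR.Coc
import Mathlib.Analysis.Convex.KreinMilman

/-!
Cocompact actions on cones are minimal: an invariant closed convex cone which contains an interior
point contains the whole cone. Rational vectors, and matrices.
-/

set_option autoImplicit false

open Pool.Agent.N110.CC
open Pool.Agent.N165.KM (interior_add_mem interior_smul_mem interior_sub exists_pos_functional)
open Pool.Agent.H73.MR
open Filter Topology

namespace Pool.Agent.H59E

theorem TR_inj {ρ : ℕ} {A B : Matrix (Fin ρ) (Fin ρ) ℤ} (h : TR A = TR B) : A = B := by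
  ext i j
  have h1 := TR_single A i j 1
  have h2 := TR_single B i j 1
  rw [h, h2, one_mul, one_mul] at h1
  exact_mod_cast h1.symm

section

variable {ρ : ℕ} {C D : Set (Fin ρ → ℝ)} {Γ : Set (Matrix (Fin ρ) (Fin ρ) ℤ ×
    Matrix (Fin ρ) (Fin ρ) ℤ)} {B : Set (Fin ρ → ℝ)}

/-- extremal points and the order given by the cone -/
theorem extreme_le (hD : PC D) {f : (Fin ρ → ℝ) →L[ℝ] ℝ} {κ : ℝ} (hκ : 0 < κ)
    (hf : ∀ x ∈ D, κ * ‖x‖ ≤ f x) {e z : Fin ρ → ℝ}
    (he : e ∈ (D ∩ {x | f x = 1}).extremePoints ℝ) (hz : z ∈ D) (hz0 : z ≠ 0) {l : ℝ} (hl : 0 < l)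
    (h : e - l • z ∈ D) : ∃ a : ℝ, 0 < a ∧ e = a • z := by
  have hpos : ∀ x ∈ D, x ≠ 0 → 0 < f x := fun x hx hx0 =>
    lt_of_lt_of_le (mul_pos hκ (norm_pos_iff.2 hx0)) (hf x hx)
  have ha := hpos z hz hz0
  have hfe : f e = 1 := (mem_extremePoints.1 he).1.2
  by_cases h0 : e - l • z = 0
  · exact ⟨l, hl, sub_eq_zero.1 h0⟩
  · have hb := hpos _ h h0
    have hsum : l * f z + f (e - l • z) = 1 := by
      rw [map_sub, map_smul, smul_eq_mul, hfe]
      ring
    have h1 : (f z)⁻¹ • z ∈ D ∩ {x | f x = 1} :=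
      ⟨hD.smul _ (inv_nonneg.2 ha.le) _ hz, by
        show f ((f z)⁻¹ • z) = 1
        rw [map_smul, smul_eq_mul, inv_mul_cancel₀ ha.ne']⟩
    have h2 : (f (e - l • z))⁻¹ • (e - l • z) ∈ D ∩ {x | f x = 1} :=
      ⟨hD.smul _ (inv_nonneg.2 hb.le) _ h, by
        show f ((f (e - l • z))⁻¹ • (e - l • z)) = 1
        rw [map_smul, smul_eq_mul, inv_mul_cancel₀ hb.ne']⟩
    have h3 : e ∈ openSegment ℝ ((f z)⁻¹ • z) ((f (e - l • z))⁻¹ • (e - l • z)) := by
      refine ⟨l * f z, f (e - l • z), by positivity, hb, hsum, ?_⟩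
      rw [smul_smul, smul_smul, mul_assoc, mul_inv_cancel₀ ha.ne', mul_inv_cancel₀ hb.ne', mul_one,
        one_smul]
      abel
    have h4 := ((mem_extremePoints.1 he).2 _ h1 _ h2 h3).1
    exact ⟨(f z)⁻¹, inv_pos.2 ha, h4.symm⟩

/-- **Minimality.** -/
theorem minimal (h : Coc C D Γ B) {D₂ : Set (Fin ρ → ℝ)} (hcl : IsClosed D₂)
    (hadd : ∀ x ∈ D₂, ∀ z ∈ D₂, x + z ∈ D₂) (hsmul : ∀ t : ℝ, 0 ≤ t → ∀ x ∈ D₂, t • x ∈ D₂)
    (hinv : ∀ A ∈ Γ, ∀ x ∈ D₂, TR A.2 x ∈ D₂) {t₀ : Fin ρ → ℝ} (h1 : t₀ ∈ interior D)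
    (h2 : t₀ ∈ D₂) : D ⊆ D₂ := by
  classical
  have hD := h.pcD
  obtain ⟨f, κ, hκ, hf⟩ := exists_pos_functional hD.closed hD.add hD.smul hD.pointed
  have hpos : ∀ x ∈ D, x ≠ 0 → 0 < f x := fun x hx hx0 =>
    lt_of_lt_of_le (mul_pos hκ (norm_pos_iff.2 hx0)) (hf x hx)
  obtain ⟨Kc, hKc⟩ : ∃ Kc : Set (Fin ρ → ℝ), Kc = D ∩ {x | f x = 1} := ⟨_, rfl⟩
  have hKcl : IsClosed Kc := by
    rw [hKc]
    exact hD.closed.inter (isClosed_eq f.continuous continuous_const)
  have hKb : Bornology.IsBounded Kc := by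
    refine (Metric.isBounded_closedBall (x := (0 : Fin ρ → ℝ)) (r := κ⁻¹)).subset ?_
    intro x hx
    rw [hKc] at hx
    rw [mem_closedBall_zero_iff]
    have h3 := hf x hx.1
    have h4 : f x = 1 := hx.2
    rw [h4] at h3
    rwa [inv_eq_one_div, le_div_iff₀ hκ, mul_comm]
  have hKcomp : IsCompact Kc := Metric.isCompact_of_isClosed_isBounded hKcl hKb
  have hKconv : Convex ℝ Kc := by
    rw [hKc]
    intro x hx z hz a b ha hb hab
    refine ⟨hD.add _ (hD.smul a ha _ hx.1) _ (hD.smul b hb _ hz.1), ?_⟩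
    show f (a • x + b • z) = 1
    have h3 : f x = 1 := hx.2
    have h4 : f z = 1 := hz.2
    rw [map_add, map_smul, map_smul, h3, h4, smul_eq_mul, smul_eq_mul, mul_one, mul_one, hab]
  have hKM := closure_convexHull_extremePoints hKcomp hKconv
  -- the constants
  obtain ⟨R, hR0, hR⟩ := h.exists_bound
  obtain ⟨ε, hε, hball⟩ := exists_ball h.comp h.Bint
  obtain ⟨ε', hε', hball'⟩ := Metric.isOpen_iff.1 isOpen_interior t₀ h1
  obtain ⟨l, hl⟩ : ∃ l : ℝ, l = ε / (‖t₀‖ + 1) := ⟨_, rfl⟩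
  obtain ⟨l', hl'⟩ : ∃ l' : ℝ, l' = ε' / (R + 1) := ⟨_, rfl⟩
  have hl0 : 0 < l := by rw [hl]; positivity
  have hl'0 : 0 < l' := by rw [hl']; positivity
  have hB1 : ∀ b ∈ B, b - l • t₀ ∈ D := by
    intro b hb
    refine hball b hb ?_
    rw [mem_ball_iff_norm]
    have h3 : b - l • t₀ - b = -(l • t₀) := by abel
    rw [h3, norm_neg, norm_smul, Real.norm_eq_abs, abs_of_pos hl0, hl, div_mul_eq_mul_div,
      div_lt_iff₀ (by positivity)]
    nlinarith [norm_nonneg t₀]
  have hB2 : ∀ b ∈ B, t₀ - l' • b ∈ D := by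
    intro b hb
    refine interior_subset (hball' ?_)
    rw [mem_ball_iff_norm]
    have h3 : t₀ - l' • b - t₀ = -(l' • b) := by abel
    rw [h3, norm_neg, norm_smul, Real.norm_eq_abs, abs_of_pos hl'0, hl', div_mul_eq_mul_div,
      div_lt_iff₀ (by positivity)]
    have h4 := hR b hb
    nlinarith [norm_nonneg b]
  -- the extremal points
  have hext : Kc.extremePoints ℝ ⊆ D₂ := by
    intro e he
    rw [hKc] at he
    have heD : e ∈ D := (mem_extremePoints.1 he).1.1
    have hfe : f e = 1 := (mem_extremePoints.1 he).1.2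
    have hx : ∀ k : ℕ, (1 / ((k : ℝ) + 1)) • t₀ + e ∈ interior D := fun k =>
      interior_add_mem hD.add (interior_smul_mem hD.smul (by positivity) h1) heD
    have hcov := fun k => h.cov _ (hx k)
    choose A hA a ha b hb hab using hcov
    obtain ⟨z, hz⟩ : ∃ z : ℕ → Fin ρ → ℝ, ∀ k, z k = a k • TR (A k).2 t₀ := ⟨_, fun _ => rfl⟩
    have hxk : ∀ k : ℕ, (1 / ((k : ℝ) + 1)) • t₀ + e = a k • TR (A k).2 (b k) := by
      intro k
      rw [← map_smul, ← hab k, h.inv_apply (hA k)]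
    have hz2 : ∀ k, z k ∈ D₂ := fun k => by
      rw [hz]
      exact hsmul _ (ha k).le _ (hinv _ (hA k) _ h2)
    have hzD : ∀ k, z k ∈ D := fun k => by
      rw [hz]
      exact hD.smul _ (ha k).le _ (h.presD' _ (hA k) _ (interior_subset h1))
    have hle : ∀ k : ℕ, ((1 / ((k : ℝ) + 1)) • t₀ + e) - l • z k ∈ D := by
      intro k
      have h3 : ((1 / ((k : ℝ) + 1)) • t₀ + e) - l • z k = a k • TR (A k).2 (b k - l • t₀) := by
        rw [hxk, hz, map_sub, map_smul, smul_sub, smul_comm l (a k)]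
      rw [h3]
      exact hD.smul _ (ha k).le _ (h.presD' _ (hA k) _ (hB1 _ (hb k)))
    have hge : ∀ k : ℕ, z k - l' • ((1 / ((k : ℝ) + 1)) • t₀ + e) ∈ D := by
      intro k
      have h3 : z k - l' • ((1 / ((k : ℝ) + 1)) • t₀ + e) = a k • TR (A k).2 (t₀ - l' • b k) := by
        rw [hxk, hz, map_sub, map_smul, smul_sub, smul_comm l' (a k)]
      rw [h3]
      exact hD.smul _ (ha k).le _ (h.presD' _ (hA k) _ (hB2 _ (hb k)))
    have hft0 : 0 ≤ f t₀ := (mul_nonneg hκ.le (norm_nonneg _)).trans (hf _ (interior_subset h1))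
    have hbd : ∀ k, z k ∈ Metric.closedBall (0 : Fin ρ → ℝ) ((f t₀ + 1) / (l * κ)) := by
      intro k
      rw [mem_closedBall_zero_iff, le_div_iff₀ (by positivity)]
      have h3 := hf _ (hle k)
      have h4 : 0 ≤ f ((1 / ((k : ℝ) + 1)) • t₀ + e - l • z k) :=
        (mul_nonneg hκ.le (norm_nonneg _)).trans h3
      rw [map_sub, map_add, map_smul, map_smul, smul_eq_mul, smul_eq_mul, hfe] at h4
      have h5 := hf _ (hzD k)
      have h6 : 1 / ((k : ℝ) + 1) * f t₀ ≤ f t₀ := by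
        have h7 : 1 / ((k : ℝ) + 1) ≤ 1 := by
          rw [div_le_one (by positivity)]
          have : (0 : ℝ) ≤ k := Nat.cast_nonneg k
          linarith
        nlinarith
      nlinarith
    obtain ⟨w, -, φ, hφ, hlim⟩ := (isCompact_closedBall (0 : Fin ρ → ℝ)
      ((f t₀ + 1) / (l * κ))).tendsto_subseq hbd
    have hlimx : Tendsto (fun k : ℕ => (1 / ((φ k : ℝ) + 1)) • t₀ + e) atTop (𝓝 e) := by
      have h3 : Tendsto (fun k : ℕ => (1 / ((k : ℝ) + 1)) • t₀ + e) atTop (𝓝 ((0 : ℝ) • t₀ + e)) :=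
        (tendsto_one_div_add_atTop_nhds_zero_nat.smul_const _).add_const _
      rw [zero_smul, zero_add] at h3
      exact h3.comp hφ.tendsto_atTop
    have hw2 : w ∈ D₂ := hcl.mem_of_tendsto hlim (Eventually.of_forall fun k => hz2 _)
    have hwD : w ∈ D := hD.closed.mem_of_tendsto hlim (Eventually.of_forall fun k => hzD _)
    have hwle : e - l • w ∈ D := hD.closed.mem_of_tendsto (hlimx.sub (hlim.const_smul l))
      (Eventually.of_forall fun k => hle _)
    have hwge : w - l' • e ∈ D := hD.closed.mem_of_tendsto (hlim.sub (hlimx.const_smul l'))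
      (Eventually.of_forall fun k => hge _)
    have hw0 : w ≠ 0 := by
      rintro rfl
      rw [zero_sub] at hwge
      have h3 := hD.pointed _ (hD.smul l' hl'0.le _ heD) hwge
      have h4 := (smul_eq_zero.1 h3).resolve_left hl'0.ne'
      rw [h4, map_zero] at hfe
      exact zero_ne_one hfe
    obtain ⟨a', ha', hea⟩ := extreme_le hD hκ hf he hwD hw0 hl0 hwle
    rw [hea]
    exact hsmul _ ha'.le _ hw2
  have hD2 : Convex ℝ D₂ := fun x hx z hz a b ha hb _ =>
    hadd _ (hsmul a ha _ hx) _ (hsmul b hb _ hz)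
  have hK2 : Kc ⊆ D₂ := by
    rw [← hKM]
    exact closure_minimal (convexHull_min hext hD2) hcl
  intro x hx
  by_cases hx0 : x = 0
  · have h3 := hsmul 0 le_rfl _ h2
    rw [zero_smul] at h3
    rwa [hx0]
  · have h3 := hpos x hx hx0
    have h4 : (f x)⁻¹ • x ∈ Kc := by
      rw [hKc]
      refine ⟨hD.smul _ (inv_nonneg.2 h3.le) _ hx, ?_⟩
      show f ((f x)⁻¹ • x) = 1
      rw [map_smul, smul_eq_mul, inv_mul_cancel₀ h3.ne']
    have h5 := hsmul _ h3.le _ (hK2 h4)
    rwa [smul_smul, mul_inv_cancel₀ h3.ne', one_smul] at h5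

/-- rational vectors of the large cone are zero or in the interior of the small cone -/
theorem rational (h : Coc C D Γ B) {q : Fin ρ → ℚ} (hq : (fun i => (q i : ℝ)) ∈ C)
    (hq0 : q ≠ 0) : (fun i => (q i : ℝ)) ∈ interior D := by
  obtain ⟨d, hd⟩ : ∃ d : ℕ, d = ∏ i, (q i).den := ⟨_, rfl⟩
  have hd0 : 0 < d := by
    rw [hd]
    exact Finset.prod_pos fun i _ => (q i).den_pos
  have hd0' : (0 : ℝ) < d := by exact_mod_cast hd0
  have hint : ∀ i, ∃ m : ℤ, ((d : ℝ) • fun i => (q i : ℝ)) i = m := by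
    intro i
    obtain ⟨k, hk⟩ : (q i).den ∣ d := hd ▸ Finset.dvd_prod_of_mem _ (Finset.mem_univ i)
    refine ⟨k * (q i).num, ?_⟩
    have h1 : (d : ℚ) * q i = k * (q i).num := by
      rw [hk]
      push_cast
      have h2 : ((q i).den : ℚ) * q i = (q i).num := Rat.den_mul_eq_num (q i)
      linear_combination (k : ℚ) * h2
    have h3 : ((d : ℝ) • fun i => (q i : ℝ)) i = (((d : ℚ) * q i : ℚ) : ℝ) := by
      rw [Pi.smul_apply, smul_eq_mul]
      push_cast
      rfl
    rw [h3, h1]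
    push_cast
    rfl
  have h1 := h.integral (h.pcC.smul d hd0'.le _ hq) hint (by
    intro h0
    apply hq0
    funext i
    have h2 := congrFun h0 i
    rw [Pi.smul_apply, smul_eq_mul, Pi.zero_apply] at h2
    have h3 : ((q i : ℚ) : ℝ) = 0 := (mul_eq_zero.1 h2).resolve_left hd0'.ne'
    exact_mod_cast h3)
  have h2 := interior_smul_mem h.pcD.smul (inv_pos.2 hd0') h1
  rwa [smul_smul, inv_mul_cancel₀ hd0'.ne', one_smul] at h2

/-- the large cone is the small cone -/
theorem eq_cone (h : Coc C D Γ B) : C = D := by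
  refine Set.Subset.antisymm ?_ h.sub
  have hD := h.pcD
  have hC := h.pcC
  have h1 : interior C ⊆ D := by
    intro x hx
    refine hD.closed.closure_subset (Metric.mem_closure_iff.2 fun ε hε => ?_)
    obtain ⟨ε', hε', hball⟩ := Metric.isOpen_iff.1 isOpen_interior x hx
    have hex : ∀ i, ∃ q : ℚ, x i < q ∧ (q : ℝ) < x i + min ε ε' := fun i =>
      exists_rat_btwn (by linarith [lt_min hε hε'])
    choose q hq1 hq2 using hex
    have hdist : dist x (fun i => (q i : ℝ)) < min ε ε' := by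
      rw [dist_pi_lt_iff (lt_min hε hε')]
      intro i
      rw [Real.dist_eq, abs_lt]
      constructor
      · linarith [hq2 i]
      · linarith [hq1 i, lt_min hε hε']
    refine ⟨fun i => (q i : ℝ), ?_, hdist.trans_le (min_le_left _ _)⟩
    by_cases hq0 : q = 0
    · rw [hq0]
      obtain ⟨b, hb⟩ := h.int
      have h2 := hD.smul 0 le_rfl _ (interior_subset hb)
      rw [zero_smul] at h2
      have h3 : (fun i => (((0 : Fin ρ → ℚ) i : ℚ) : ℝ)) = 0 := by
        funext i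
        simp
      rwa [h3]
    · refine interior_subset (rational h (interior_subset (hball ?_)) hq0)
      rw [Metric.mem_ball, dist_comm]
      exact hdist.trans_le (min_le_right _ _)
  intro x hx
  obtain ⟨b, hb⟩ := h.int
  have hbC : b ∈ interior C := interior_mono h.sub hb
  have h2 : Tendsto (fun k : ℕ => (1 / ((k : ℝ) + 1)) • b + x) atTop (𝓝 ((0 : ℝ) • b + x)) :=
    (tendsto_one_div_add_atTop_nhds_zero_nat.smul_const _).add_const _
  rw [zero_smul, zero_add] at h2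
  refine hD.closed.mem_of_tendsto h2 (Eventually.of_forall fun k => h1 ?_)
  exact interior_add_mem hC.add (interior_smul_mem hC.smul (by positivity) hbC) hx

end

end Pool.Agent.H59E
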