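import Pool.Agent.H59E.Min
import Pool.Agent.H59E.Defs
import Pool.Agent.H59C.Geo
import Pool.Agent.H73.MR.Res
import Pool.Agent.N362.CC.COV

/-!
The movable cone and the effective cone in an invariant subspace on which a group of
pseudo-automorphisms acts cocompactly. Parts of the proof follow `Pool.Agent.N110.CC` (`mainW`,
`sub_mov`, by helper110 and helper340).
-/

set_option autoImplicit false
set_option linter.unusedSectionVars false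

open FF Pool.Agent.W602.GT Pool.Agent.Y172 Pool.Agent.R887
open Pool.Agent.Y167 (cone cone_image cone_ind zero_mem_cone mem_cone_self cone_add cone_smul
  cone_mono)
open Pool.Agent.N110 Pool.Agent.N110.PA Pool.Agent.N110.NV Pool.Agent.N492.PA
open Pool.Agent.N165.KM (interior_add_mem interior_smul_mem interior_sub exists_pos_functional HasFD
  Sandwich IntL)
open Pool.Agent.N110.CC Pool.Agent.H73.MR
open Filter Topology

namespace Pool.Agent.H59E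

section

variable {K : Type} [Field K] [Algebra ℂ K] {N n r ρ : ℕ} {y : Fin (N + 1) → K}
  {c : Place ℂ K → Fin ρ → ℤ} {𝒮₀ 𝒮 : Subgroup (K ≃ₐ[ℂ] K)}

/-- **The cones in an invariant subspace with a cocompact action.** -/
theorem mainCoc (hy : NormalModel y) (hc : PicardBasis y c) (h₀ : 𝒮₀ ≤ 𝒮)
    (h𝒮 : ∀ φ ∈ 𝒮, PseudoAut φ y)
    {s : Fin (r + 1) → Fin ρ → ℤ} (hli : LinearIndependent ℝ (fun j i => (s j i : ℝ)))
    (hst : ∀ ψ ∈ 𝒮, PreservesSpan y c s ψ) {t₀ : Fin (r + 1) → ℝ}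
    (ht₀ : comb s t₀ ∈ interior (CE y c)) (hcoc : CocompactOn y c s 𝒮₀) :
    (∀ D : Set (Fin ρ → ℝ), IsClosed D → (∀ x ∈ D, ∀ z ∈ D, x + z ∈ D) →
      (∀ t : ℝ, 0 ≤ t → ∀ x ∈ D, t • x ∈ D) →
      (∀ ψ ∈ 𝒮, ∀ T, IsPullBack y c ψ T → ∀ x ∈ D, T x ∈ D) → comb s t₀ ∈ D →
      ∀ t, comb s t ∈ CE y c → comb s t ∈ D) ∧
    (∀ t, comb s t ∈ effCone y c → t ≠ 0 → comb s t ∈ interior (CE y c)) ∧
    HasFundDomain {T' | ∃ ψ ∈ 𝒮, IsPullBackOn y c s ψ T'} {t | comb s t ∈ effCone y c} := by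
  classical
  obtain ⟨M, hM⟩ := exists_rep hy hc h𝒮
  have hpc := pc_eff hc.numClasses
  obtain ⟨hE1, hE2⟩ := Pool.Agent.N40.CC.leafEFF K N ρ y hy c hc
  obtain ⟨e, he⟩ : ∃ e : Fin (r + 1) → Fin ρ → ℝ, e = fun j i => (s j i : ℝ) := ⟨_, rfl⟩
  rw [← he] at hli
  obtain ⟨ι, hι⟩ : ∃ ι : (Fin (r + 1) → ℝ) →ₗ[ℝ] (Fin ρ → ℝ), ∀ t, ι t = ∑ i, t i • e i :=
    ⟨Fintype.linearCombination ℝ e, fun t => Fintype.linearCombination_apply ℝ e t⟩
  have hcomb : ∀ t, comb s t = ι t := fun t => by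
    rw [hι, he]
    rfl
  have hιinj : ∀ t, ι t = 0 → t = 0 := by
    intro t ht
    rw [hι] at ht
    exact funext fun i => Fintype.linearIndependent_iff.1 hli t ht i
  have hinj : ∀ t u, ι t = ι u → t = u := fun t u h =>
    sub_eq_zero.1 (hιinj _ (by rw [map_sub, h, sub_self]))
  have hιs : ∀ j, ι (Pi.single j 1) = e j := by
    intro j
    rw [hι, Finset.sum_eq_single j]
    · simp
    · intro i _ hij
      rw [Pi.single_eq_of_ne hij, zero_smul]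
    · intro h
      exact absurd (Finset.mem_univ _) h
  have hιc : Continuous ι := LinearMap.continuous_of_finiteDimensional ι
  -- the matrices
  have hex : ∀ ψ ∈ 𝒮, ∀ j, ∃ a : Fin (r + 1) → ℤ, TR (M ψ) (e j) = ι (fun i => (a i : ℝ)) := by
    intro ψ hψ j
    obtain ⟨a, ha⟩ := hst ψ hψ (hM.TE ⟨ψ, hψ⟩) (hM.isPull ⟨ψ, hψ⟩) j
    refine ⟨a, ?_⟩
    rw [hM.TE_apply, hcomb] at ha
    rw [he]
    exact ha
  choose! a ha using hex
  obtain ⟨M', hM'⟩ : ∃ M' : (K ≃ₐ[ℂ] K) → Matrix (Fin (r + 1)) (Fin (r + 1)) ℤ,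
      ∀ ψ i j, M' ψ i j = a ψ j i := ⟨fun ψ => Matrix.of fun i j => a ψ j i, fun _ _ _ => rfl⟩
  have hcomp : ∀ ψ ∈ 𝒮, ∀ t, ι (TR (M' ψ) t) = TR (M ψ) (ι t) := by
    intro ψ hψ
    have h1 : ι ∘ₗ TR (M' ψ) = TR (M ψ) ∘ₗ ι := by
      refine (Pi.basisFun ℝ (Fin (r + 1))).ext fun j => ?_
      rw [LinearMap.comp_apply, LinearMap.comp_apply, Pi.basisFun_apply, hιs, ha ψ hψ j]
      congr 1
      funext i
      rw [TR, Matrix.toLin'_apply, Matrix.mulVec_single_one]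
      show ((M' ψ i j : ℤ) : ℝ) = _
      rw [hM']
    exact fun t => LinearMap.congr_fun h1 t
  have hone : TR (M' 1) = 1 := LinearMap.ext fun t => hinj _ _ (by
    rw [hcomp 1 𝒮.one_mem, hM.one, TR_one]
    rfl)
  have hmul : ∀ ψ ∈ 𝒮, ∀ χ ∈ 𝒮, TR (M' (ψ * χ)) = TR (M' ψ) * TR (M' χ) := by
    intro ψ hψ χ hχ
    refine LinearMap.ext fun t => hinj _ _ ?_
    rw [hcomp _ (𝒮.mul_mem hψ hχ), hM.mul ψ hψ χ hχ, TR_mul]
    show TR (M ψ) (TR (M χ) (ι t)) = ι (TR (M' ψ) (TR (M' χ) t))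
    rw [hcomp ψ hψ, hcomp χ hχ]
  obtain ⟨TE', hTE'⟩ : ∃ TE' : 𝒮 → ((Fin (r + 1) → ℝ) ≃ₗ[ℝ] (Fin (r + 1) → ℝ)),
      ∀ ψ t, TE' ψ t = TR (M' ψ) t :=
    ⟨fun ψ => LinearEquiv.ofLinear (TR (M' ψ)) (TR (M' (ψ : K ≃ₐ[ℂ] K)⁻¹))
      (by
        show TR (M' ψ) * TR (M' (ψ : K ≃ₐ[ℂ] K)⁻¹) = 1
        rw [← hmul _ ψ.2 _ (𝒮.inv_mem ψ.2), mul_inv_cancel, hone])
      (by
        show TR (M' (ψ : K ≃ₐ[ℂ] K)⁻¹) * TR (M' ψ) = 1
        rw [← hmul _ (𝒮.inv_mem ψ.2) _ ψ.2, inv_mul_cancel, hone]), fun _ _ => rfl⟩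
  have hTEon : ∀ ψ : 𝒮, IsPullBackOn y c s ψ (TE' ψ) := fun ψ =>
    ⟨hM.TE ψ, hM.isPull ψ, fun t => by
      rw [hcomb, hcomb, hTE', hM.TE_apply, hcomp _ ψ.2]⟩
  have huniq : ∀ ψ (hψ : ψ ∈ 𝒮) T, IsPullBackOn y c s ψ T → T = TE' ⟨ψ, hψ⟩ := by
    rintro ψ hψ T ⟨T₁, hT₁, hT⟩
    apply LinearEquiv.ext
    intro t
    apply hinj
    have h1 := pull_ext hc hT₁ (hM.isPull ⟨ψ, hψ⟩)
    have h2 := hT t
    rw [hcomb, hcomb, h1, hM.TE_apply] at h2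
    rw [h2, hTE', hcomp ψ hψ]
  -- the cones
  obtain ⟨C', hC'⟩ : ∃ C' : Set (Fin (r + 1) → ℝ), C' = ι ⁻¹' CE y c := ⟨_, rfl⟩
  obtain ⟨E', hE'⟩ : ∃ E' : Set (Fin (r + 1) → ℝ), E' = ι ⁻¹' effCone y c := ⟨_, rfl⟩
  have hmem : ∀ t, t ∈ C' ↔ ι t ∈ CE y c := fun t => by rw [hC']; rfl
  have hmemE : ∀ t, t ∈ E' ↔ ι t ∈ effCone y c := fun t => by rw [hE']; rfl
  have hPC : PC C' := by
    refine ⟨?_, ?_, ?_, ?_⟩
    · rw [hC']
      exact hpc.closed.preimage hιc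
    · intro x hx z hz
      rw [hmem] at hx hz ⊢
      rw [map_add]
      exact hpc.add _ hx _ hz
    · intro b hb x hx
      rw [hmem] at hx ⊢
      rw [map_smul]
      exact hpc.smul b hb _ hx
    · intro x hx hx'
      rw [hmem] at hx hx'
      rw [map_neg] at hx'
      exact hιinj x (hpc.pointed _ hx hx')
  obtain ⟨x₀, hx₀⟩ : ∃ x₀ : Fin ρ → ℝ, x₀ = ι t₀ := ⟨_, rfl⟩
  have hq₀ : x₀ ∈ interior (CE y c) := by
    rw [hx₀, ← hcomb]
    exact ht₀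
  have ht₀int : t₀ ∈ interior C' := by
    rw [mem_interior]
    refine ⟨ι ⁻¹' interior (CE y c), ?_, isOpen_interior.preimage hιc, ?_⟩
    · rw [hC']
      exact Set.preimage_mono interior_subset
    · show ι t₀ ∈ interior (CE y c)
      rwa [← hx₀]
  have hint : ∀ x ∈ interior C', ι x ∈ interior (CE y c) := by
    intro x hx
    obtain ⟨ε, hε, hx'⟩ := interior_sub hx t₀
    have h1 : ι (x - ε • t₀) ∈ CE y c := (hmem _).1 (interior_subset hx')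
    have h2 : ι x = ε • x₀ + ι (x - ε • t₀) := by
      rw [map_sub, map_smul, ← hx₀]
      abel
    rw [h2]
    exact interior_add_mem hpc.add (interior_smul_mem hpc.smul hε hq₀) h1
  have hpres := pres_S hy hc hM
  have hpresE := presE_S hM
  -- the cocompact action
  obtain ⟨D, B, hD1, hD2, hD3, hD4, hD5, hD6, hB1, hB2, hcov⟩ := hcoc
  have hDC : D ⊆ C' := fun x hx => (hmem x).2 (by
    rw [← hcomb]
    exact effCone_sub hy hc (hD5 x hx))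
  obtain ⟨Γ, hΓ⟩ : ∃ Γ : Set (Matrix (Fin (r + 1)) (Fin (r + 1)) ℤ ×
    Matrix (Fin (r + 1)) (Fin (r + 1)) ℤ), Γ =
      (fun ψ => (M' ψ, M' ψ⁻¹)) '' (𝒮₀ : Set (K ≃ₐ[ℂ] K)) := ⟨_, rfl⟩
  have hDinv : ∀ ψ ∈ 𝒮₀, ∀ x ∈ D, TR (M' ψ) x ∈ D := by
    intro ψ hψ x hx
    have h1 := hD6 ψ hψ _ (hTEon ⟨ψ, h₀ hψ⟩) x hx
    rwa [hTE'] at h1
  have hC : Coc C' D Γ B := by
    refine ⟨hPC, ⟨hD1, hD2, hD3, fun x hx hx' => hPC.pointed x (hDC hx) (hDC hx')⟩, hDC, hD4,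
      ?_, ?_, ?_, ?_, hB1, hB2, ?_⟩
    · rw [hΓ]
      rintro _ ⟨ψ, hψ, rfl⟩
      have hψ' : ψ ∈ 𝒮 := h₀ hψ
      constructor
      · apply TR_inj
        show TR (M' ψ * M' ψ⁻¹) = TR 1
        rw [TR_mul, ← hmul _ hψ' _ (𝒮.inv_mem hψ'), mul_inv_cancel, hone, TR_one]
      · apply TR_inj
        show TR (M' ψ⁻¹ * M' ψ) = TR 1
        rw [TR_mul, ← hmul _ (𝒮.inv_mem hψ') _ hψ', inv_mul_cancel, hone, TR_one]
    · rw [hΓ]
      rintro _ ⟨ψ, hψ, rfl⟩ x hx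
      rw [hmem] at hx ⊢
      show ι (TR (M' ψ) x) ∈ CE y c
      rw [hcomp _ (h₀ hψ)]
      exact hpres _ (h₀ hψ) _ hx
    · rw [hΓ]
      rintro _ ⟨ψ, hψ, rfl⟩ x hx
      exact hDinv ψ hψ x hx
    · rw [hΓ]
      rintro _ ⟨ψ, hψ, rfl⟩ x hx
      exact hDinv _ (𝒮₀.inv_mem hψ) x hx
    · intro x hx
      obtain ⟨ψ, hψ, T, hT, b, hb, hbB⟩ := hcov x hx
      refine ⟨(M' ψ, M' ψ⁻¹), ?_, b⁻¹, inv_pos.2 hb, _, hbB, ?_⟩
      · rw [hΓ]
        exact ⟨ψ, hψ, rfl⟩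
      · rw [smul_smul, inv_mul_cancel₀ hb.ne', one_smul, huniq ψ (h₀ hψ) T hT, hTE']
  have hCD : C' = D := eq_cone hC
  -- effective classes
  have hbig : ∀ t, t ∈ E' → t ≠ 0 → t ∈ interior C' := by
    intro t ht ht0
    rw [hmemE, ← hcomb] at ht
    obtain ⟨t', ht'0, ht'E, ε, hε, hsub⟩ := eff_approx ht ht0
    have h1 : (fun j => (t' j : ℝ)) ∈ C' := by
      rw [hmem, ← hcomb]
      exact hE1 ht'E
    have h3 : (fun j => (t' j : ℝ)) ∈ interior C' := by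
      have h2 := rational hC h1 ht'0
      rwa [← hCD] at h2
    have h4 : t - ε • (fun j => (t' j : ℝ)) ∈ C' := by
      rw [hmem, ← hcomb]
      exact hE1 hsub
    have h5 := interior_add_mem hPC.add (interior_smul_mem hPC.smul hε h3) h4
    rwa [add_sub_cancel] at h5
  refine ⟨fun D₂ hcl hadd hsmul hD hx t ht => ?_, fun t ht ht0 => ?_, ?_⟩
  · have h1 := minimal hC (D₂ := ι ⁻¹' D₂) (hcl.preimage hιc) (fun x hx z hz => by
      show ι (x + z) ∈ D₂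
      rw [map_add]
      exact hadd _ hx _ hz) (fun b hb x hx => by
      show ι (b • x) ∈ D₂
      rw [map_smul]
      exact hsmul b hb _ hx) (by
      rw [hΓ]
      rintro _ ⟨ψ, hψ, rfl⟩ x hx
      have hψ' : ψ⁻¹ ∈ 𝒮 := 𝒮.inv_mem (h₀ hψ)
      show ι (TR (M' ψ⁻¹) x) ∈ D₂
      rw [hcomp _ hψ']
      exact hD _ hψ' (hM.TE ⟨_, hψ'⟩) (hM.isPull ⟨_, hψ'⟩) _ hx)
      (t₀ := t₀) (by rwa [← hCD]) (by
        show ι t₀ ∈ D₂
        rw [← hcomb]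
        exact hx)
    rw [hcomb] at ht ⊢
    exact h1 (by
      rw [← hCD]
      exact (hmem t).2 ht)
  · rw [hcomb] at ht ⊢
    exact hint _ (hbig t ((hmemE t).2 ht) ht0)
  -- the fundamental domain
  obtain ⟨F, hF, hcov'⟩ : ∃ F : Finset (Fin (r + 1) → ℝ),
      (∀ a ∈ F, a ∈ interior C' ∧ ∀ i, ∃ m : ℤ, a i = m) ∧ ∀ x ∈ interior C', ∃ ψ ∈ 𝒮,
        TR (M' ψ) x ∈ cone F := by
    have hB0 : (0 : Fin (r + 1) → ℝ) ∉ B := by
      intro h0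
      have h1 := hB2 h0
      obtain ⟨τ, hτ, h2⟩ := interior_sub h1 t₀
      rw [zero_sub] at h2
      have h3 := hPC.pointed _ (hPC.smul τ hτ.le _ (interior_subset ht₀int))
        (hDC (interior_subset h2))
      have h4 := (smul_eq_zero.1 h3).resolve_left hτ.ne'
      -- then `0` is an interior point of a pointed cone
      rw [h4] at ht₀int
      have h5 : ∀ v : Fin (r + 1) → ℝ, v = 0 := by
        intro v
        obtain ⟨τ₁, hτ₁, h6⟩ := interior_sub ht₀int v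
        obtain ⟨τ₂, hτ₂, h7⟩ := interior_sub ht₀int (-v)
        rw [zero_sub] at h6 h7
        rw [smul_neg, neg_neg] at h7
        have h8 := hPC.smul (τ₁ * τ₂⁻¹) (by positivity) _ (interior_subset h7)
        rw [smul_smul, mul_assoc, inv_mul_cancel₀ hτ₂.ne', mul_one] at h8
        have h9 := hPC.pointed _ h8 (interior_subset h6)
        exact (smul_eq_zero.1 h9).resolve_left hτ₁.ne'
      have h6 := congrFun (h5 (fun _ => 1)) 0
      simp at h6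
    obtain ⟨Kc, hKc⟩ : ∃ Kc : Set (Fin (r + 1) → ℝ),
      Kc = (fun p : ℝ × (Fin (r + 1) → ℝ) => p.1 • p.2) '' (Set.Ici 0 ×ˢ B) := ⟨_, rfl⟩
    have hKcl : IsClosed Kc := by
      rw [← isSeqClosed_iff_isClosed]
      intro u x hu hux
      rw [hKc] at hu ⊢
      choose p hp hpu using hu
      obtain ⟨m, hm0, hm⟩ : ∃ m : ℝ, 0 < m ∧ ∀ b ∈ B, m ≤ ‖b‖ := by
        by_cases hBe : B.Nonempty
        · obtain ⟨b₁, hb₁, hmin⟩ := hB1.exists_isMinOn hBe continuous_norm.continuousOn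
          exact ⟨‖b₁‖, norm_pos_iff.2 fun h => hB0 (h ▸ hb₁), fun b hb => hmin hb⟩
        · exact ⟨1, one_pos, fun b hb => (hBe ⟨b, hb⟩).elim⟩
      obtain ⟨R, hR⟩ := hux.norm.bddAbove_range
      have hpb : ∀ k, p k ∈ Set.Icc (0 : ℝ) (R / m) ×ˢ B := by
        intro k
        refine ⟨⟨(hp k).1, ?_⟩, (hp k).2⟩
        rw [le_div_iff₀ hm0]
        have h1 : ‖u k‖ ≤ R := hR ⟨k, rfl⟩
        rw [← hpu k, norm_smul, Real.norm_eq_abs, abs_of_nonneg (hp k).1] at h1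
        exact (mul_le_mul_of_nonneg_left (hm _ (hp k).2) (hp k).1).trans h1
      obtain ⟨q, hq, φ, hφ, hlim⟩ := (isCompact_Icc.prod hB1).tendsto_subseq hpb
      refine ⟨q, ⟨hq.1.1, hq.2⟩, ?_⟩
      have h1 : Tendsto (fun k => (p (φ k)).1 • (p (φ k)).2) atTop (𝓝 (q.1 • q.2)) :=
        ((continuous_fst.tendsto q).comp hlim).smul ((continuous_snd.tendsto q).comp hlim)
      have h2 : (fun k => (p (φ k)).1 • (p (φ k)).2) = fun k => u (φ k) := by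
        funext k
        exact hpu (φ k)
      rw [h2] at h1
      exact tendsto_nhds_unique h1 (hux.comp hφ.tendsto_atTop)
    obtain ⟨F, hF, hFc⟩ := Pool.Agent.N362.CC.leafCOV (r + 1) C' hPC Kc hKcl (by
      rw [hKc]
      rintro b hb _ ⟨p, hp, rfl⟩
      exact ⟨(b * p.1, p.2), ⟨mul_nonneg hb.le hp.1, hp.2⟩, by
        show (b * p.1) • p.2 = b • p.1 • p.2
        rw [mul_smul]⟩) (by
      rw [hKc]
      rintro _ ⟨p, hp, rfl⟩ hx0
      have h1 : 0 < p.1 := lt_of_le_of_ne hp.1 fun h => hx0 (by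
        show p.1 • p.2 = 0
        rw [← h, zero_smul])
      refine interior_smul_mem hPC.smul h1 ?_
      have h2 := hB2 hp.2
      rwa [← hCD] at h2)
    refine ⟨F, hF, fun x hx => ?_⟩
    rw [hCD] at hx
    obtain ⟨ψ, hψ, T, hT, b, hb, hbB⟩ := hcov x hx
    refine ⟨ψ, h₀ hψ, hFc _ ?_⟩
    rw [hKc]
    refine ⟨(b⁻¹, b • T x), ⟨(inv_pos.2 hb).le, hbB⟩, ?_⟩
    show b⁻¹ • b • T x = TR (M' ψ) x
    rw [smul_smul, inv_mul_cancel₀ hb.ne', one_smul, huniq ψ (h₀ hψ) T hT, hTE']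
  obtain ⟨pull, hpull⟩ : ∃ pull : 𝒮 → ((Fin (r + 1) → ℝ) ≃ₗ[ℝ] (Fin (r + 1) → ℝ)),
    ∀ ψ, pull ψ = TE' ψ⁻¹ := ⟨_, fun _ => rfl⟩
  have hintE : interior C' ⊆ E' := fun x hx => (hmemE x).2 (hE2 (hint x hx))
  have hpresE' : ∀ ψ ∈ 𝒮, ∀ x ∈ E', TR (M' ψ) x ∈ E' := by
    intro ψ hψ x hx
    rw [hmemE] at hx ⊢
    rw [hcomp ψ hψ]
    exact hpresE ψ hψ _ hx
  have hfd : HasFD pull E' := by
    refine HasFD.of_cover (C := C') ⟨hPC.closed, hPC.add, hPC.smul, hPC.pointed, ⟨t₀, ht₀int⟩,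
      fun x hx => (hmem x).2 (hE1 ((hmemE x).1 hx)), hintE, fun x hx z hz => ?_,
      fun t ht x hx => ?_⟩
      (fun f g => ?_) (fun f x hx => ?_)
      (fun f x hx => ?_) (fun x hx => ?_) F (fun a ha => ⟨(hF a ha).2, hintE (hF a ha).1⟩)
      (fun x hx => ?_)
    · rw [hmemE] at hx hz ⊢
      rw [map_add]
      exact coneOf_add hx hz
    · rw [hmemE] at hx ⊢
      rw [map_smul]
      exact coneOf_smul hx ht
    · rw [hpull, hpull, hpull]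
      apply LinearEquiv.ext
      intro t
      show TE' (f * g)⁻¹ t = TE' g⁻¹ (TE' f⁻¹ t)
      rw [hTE', hTE', hTE', mul_inv_rev]
      have h1 := hmul _ (g⁻¹).2 _ (f⁻¹).2
      exact LinearMap.congr_fun h1 t
    · rw [hpull, hTE']
      exact TR_int _ hx
    · rw [hpull, hTE']
      exact hpresE' _ (f⁻¹).2 x hx
    · by_cases hx0 : x = 0
      · exact ⟨∅, by simp, hx0 ▸ zero_mem_cone _⟩
      · obtain ⟨ψ, hψ, hv⟩ := hcov' x (hbig x hx hx0)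
        refine ⟨F.image (TR (M' ψ⁻¹)), fun a ha => ?_, ?_⟩
        · obtain ⟨a', ha', rfl⟩ := Finset.mem_image.1 ha
          refine ⟨TR_int _ (hF a' ha').2, hpresE' _ (𝒮.inv_mem hψ) _ (hintE (hF a' ha').1)⟩
        · have h1 := cone_image (TR (M' ψ⁻¹)) hv
          have h2 : TR (M' ψ⁻¹) (TR (M' ψ) x) = x := by
            have h3 := hmul _ (𝒮.inv_mem hψ) _ hψ
            rw [inv_mul_cancel, hone] at h3
            exact (LinearMap.congr_fun h3 x).symm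
          rwa [h2] at h1
    · obtain ⟨ψ, hψ, hv⟩ := hcov' x hx
      refine ⟨(⟨ψ, hψ⟩ : 𝒮)⁻¹, ?_⟩
      rw [hpull, inv_inv, hTE']
      exact hv
  obtain ⟨S, hS, hU, hdis⟩ := hfd
  have hset : ∀ T, (∃ ψ ∈ 𝒮, IsPullBackOn y c s ψ T) ↔ ∃ f : 𝒮, T = pull f := by
    intro T
    constructor
    · rintro ⟨ψ, hψ, hT⟩
      refine ⟨(⟨ψ, hψ⟩ : 𝒮)⁻¹, ?_⟩
      rw [hpull, inv_inv]
      exact huniq ψ hψ T hT
    · rintro ⟨f, rfl⟩
      rw [hpull]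
      exact ⟨_, (f⁻¹).2, hTEon f⁻¹⟩
  have hEset : {t | comb s t ∈ effCone y c} = E' := by
    ext t
    rw [hmemE, ← hcomb]
    exact Iff.rfl
  rw [hEset]
  refine ⟨S, hS, ?_, fun T hT hT1 => ?_⟩
  · rw [hU]
    ext x
    simp only [Set.mem_iUnion, Set.mem_setOf_eq]
    constructor
    · rintro ⟨f, hf⟩
      exact ⟨pull f, (hset _).2 ⟨f, rfl⟩, hf⟩
    · rintro ⟨T, hT, hx⟩
      obtain ⟨f, rfl⟩ := (hset T).1 hT
      exact ⟨f, hx⟩
  · obtain ⟨f, rfl⟩ := (hset T).1 hT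
    exact hdis f hT1

/-- **The movable cone.** -/
theorem sub_movCoc (hy : NormalModel y) (hc : PicardBasis y c) (h₀ : 𝒮₀ ≤ 𝒮)
    (h𝒮 : ∀ φ ∈ 𝒮, PseudoAut φ y)
    {s : Fin (r + 1) → Fin ρ → ℤ} (hli : LinearIndependent ℝ (fun j i => (s j i : ℝ)))
    (hst : ∀ ψ ∈ 𝒮, PreservesSpan y c s ψ) {t₀ : Fin (r + 1) → ℝ}
    (ht₀ : comb s t₀ ∈ interior (effCone y c)) (ht₀' : comb s t₀ ∈ movCone y c)
    (hcoc : CocompactOn y c s 𝒮₀) :
    (∀ t, comb s t ∈ closure (effCone y c) → comb s t ∈ movCone y c) ∧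
    (∀ t, comb s t ∈ effCone y c → t ≠ 0 → comb s t ∈ interior (effCone y c)) ∧
    HasFundDomain {T | ∃ ψ ∈ 𝒮, IsPullBackOn y c s ψ T}
      {t | comb s t ∈ movCone y c ∩ effCone y c} := by
  obtain ⟨hE1, hE2⟩ := Pool.Agent.N40.CC.leafEFF K N ρ y hy c hc
  obtain ⟨h1, h2, h3⟩ := mainCoc hy hc h₀ h𝒮 hli hst (interior_mono hE1 ht₀) hcoc
  have h4' : ∀ t, comb s t ∈ CE y c → comb s t ∈ movCone y c := fun t ht =>
    h1 (movCone y c) isClosed_closure (fun x hx z hz => closure_coneOf_add hx hz)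
      (fun t ht x hx => closure_coneOf_smul hx ht)
      (fun ψ hψ T hT x hx => closure_coneOf_map T.toLinearMap (by
        rintro _ ⟨D', hD', rfl⟩
        have h4 := Pool.Agent.N608.CC.leafMOV K N ρ y hy c ψ (h𝒮 ψ hψ) T hT D' hD'.1
        exact ⟨_, h4.2 hD', h4.1.symm⟩) hx) ht₀' t ht
  have h4 : ∀ t, comb s t ∈ effCone y c → comb s t ∈ movCone y c := fun t ht => h4' t (hE1 ht)
  refine ⟨fun t ht => h4' t (effCone_sub hy hc ht), fun t ht ht0 =>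
    interior_maximal hE2 isOpen_interior (h2 t ht ht0), ?_⟩
  have h5 : {t | comb s t ∈ movCone y c ∩ effCone y c} = {t | comb s t ∈ effCone y c} := by
    ext t
    exact ⟨fun h => h.2, fun h => ⟨h4 t h, h⟩⟩
  rw [h5]
  exact h3

end

end Pool.Agent.H59E
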